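import Pool.Agent.Lib.MP_b07157_agL.Lf
import Pool.Agent.Lib.MP_b07157_agQ.QMain

/-!
# The strong monodromy conjecture for homogeneous polynomials with log canonical threshold `n/d`
-/

noncomputable section

namespace MPb07157

open MvPolynomial MeasureTheory

variable {n : ℕ}

/-- Homogeneous polynomials of degree `d` in `n` variables with log canonical threshold `n/d`, whose
reduced hypersurface has normal crossings outside finitely many lines through the origin, with
stably non-degenerate germs at the points of these lines. -/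
theorem smc_homogeneous_lct {f : MvPolynomial (Fin n) ℂ} (hf : f ≠ 0) {d : ℕ} (hd : 0 < d)
    (hh : f.IsHomogeneous d) {r : ℕ} {g : Fin r → MvPolynomial (Fin n) ℂ} {m : Fin r → ℕ}
    (hfact : IsFact f g m) (B : Finset (Fin n → ℂ)) (hB : ∀ b ∈ B, b ≠ 0)
    (hsnc : ∀ p ≠ 0, (∀ b ∈ B, ∀ l : ℂ, p ≠ l • b) → SncAt g p)
    (hst : ∀ b ∈ B, eval b f = 0 → StableLoc n (translate b f))
    (hint : ∀ c : ℝ, 0 < c → c < (n : ℝ) / d →
      IntegrableOn (fun x => ‖eval x f‖ ^ (-(2 * c))) (Metric.ball (0 : Fin n → ℂ) 1))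
    {s₀ : ℚ} (hs : s₀ < 0) (hp : IsPole (Zmot f) s₀ ∨ IsPole (Zmot0 f) s₀) :
    IsBernsteinSatoRoot f s₀ ∧ IsLocalBernsteinSatoRoot f s₀ := by
  refine roots_of_form fun b hb => ?_
  have hbg : IsBernsteinSato f b := isBernsteinSato_of_form_homogeneous hh hb
  have hp' : IsPole (Zmot (prodPow g m)) s₀ ∨ IsPole (Zmot0 (prodPow g m)) s₀ := by
    rw [← hfact.eq]
    exact hp
  rcases pole_of_homogeneous (fun i => (hfact.irr i).ne_zero) hfact.pos hd
    (hfact.eq ▸ hh) B hB hsnc hp' with h1 | ⟨p, hpB, hp0, hpp⟩ | ⟨i, h1⟩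
  · subst h1
    exact Lct.root_of_lct hd hf hh hint hbg
  · rw [← hfact.eq] at hp0 hpp
    exact SmcLoc.of_stableLoc (hst p hpB hp0)
      (translate_ne_zero hf p) (coeff_zero_translate hp0) s₀ hs hpp b (form_translate p hbg)
  · subst h1
    refine root_of_mult (hfact.irr i) (hfact.pos i) ?_ ?_ b hbg
    · rw [hfact.eq]
      exact Finset.dvd_prod_of_mem _ (Finset.mem_univ i)
    · exact hfact.not_pow_dvd i

/-- The case of three variables. -/
theorem smc_homogeneous_three_lct {f : MvPolynomial (Fin 3) ℂ} (hf : f ≠ 0) {d : ℕ} (hd : 0 < d)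
    (hh : f.IsHomogeneous d)
    (hst : ∀ p ≠ 0, eval p f = 0 → StableLoc 3 (translate p f))
    (hint : ∀ c : ℝ, 0 < c → c < (3 : ℝ) / d →
      IntegrableOn (fun x => ‖eval x f‖ ^ (-(2 * c))) (Metric.ball (0 : Fin 3 → ℂ) 1))
    {s₀ : ℚ} (hs : s₀ < 0) (hp : IsPole (Zmot f) s₀ ∨ IsPole (Zmot0 f) s₀) :
    IsBernsteinSatoRoot f s₀ ∧ IsLocalBernsteinSatoRoot f s₀ := by
  obtain ⟨r, g, m, hfact⟩ := exists_isFact hf hd hh
  obtain ⟨B, hB0, hB⟩ := exists_lines hfact hd hh
  refine smc_homogeneous_lct hf hd hh hfact B hB0 (fun p hp0 hpB => ?_)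
    (fun b hb hb0 => hst b (hB0 b hb) hb0) (by exact_mod_cast hint) hs hp
  apply sncAt_of_vv_ne g m
  by_contra hcon
  push Not at hcon
  obtain ⟨b, hb, l, hl⟩ := hB p hp0 hcon
  exact hpB b hb l hl

end MPb07157
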