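import Mathlib

/-!
# Analytic continuation of parametric integrals
-/

noncomputable section

namespace MPb07157.Lct

open MeasureTheory Complex Filter Topology

variable {Ω : Type*} [MeasurableSpace Ω] {μ : Measure Ω}

theorem abs_mul_exp_le {ε X σ x₀ : ℝ} (hε : 0 < ε) (h : |σ - x₀| < ε) :
    |X| * Real.exp (σ * X) ≤ ε⁻¹ * (Real.exp ((x₀ + 2 * ε) * X) + Real.exp ((x₀ - 2 * ε) * X)) := by
  have h1 : |X| * ε ≤ Real.exp (ε * |X|) := by
    have := Real.add_one_le_exp (ε * |X|)
    nlinarith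
  have h2 : Real.exp (σ * X) ≤ Real.exp (x₀ * X + ε * |X|) := by
    apply Real.exp_le_exp.2
    have h3 : (σ - x₀) * X ≤ |σ - x₀| * |X| := by
      rw [← abs_mul]
      exact le_abs_self _
    have h4 : |σ - x₀| * |X| ≤ ε * |X| := mul_le_mul_of_nonneg_right h.le (abs_nonneg _)
    linarith
  have h3 : |X| ≤ ε⁻¹ * Real.exp (ε * |X|) := by
    rw [inv_mul_eq_div, le_div_iff₀ hε]
    exact h1
  have h4 : Real.exp (x₀ * X + 2 * ε * |X|) ≤
      Real.exp ((x₀ + 2 * ε) * X) + Real.exp ((x₀ - 2 * ε) * X) := by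
    rcases abs_cases X with ⟨h5, -⟩ | ⟨h5, -⟩
    · rw [h5]
      have : x₀ * X + 2 * ε * X = (x₀ + 2 * ε) * X := by ring
      rw [this]
      have := Real.exp_pos ((x₀ - 2 * ε) * X)
      linarith
    · rw [h5]
      have : x₀ * X + 2 * ε * -X = (x₀ - 2 * ε) * X := by ring
      rw [this]
      have := Real.exp_pos ((x₀ + 2 * ε) * X)
      linarith
  calc |X| * Real.exp (σ * X) ≤ (ε⁻¹ * Real.exp (ε * |X|)) * Real.exp (x₀ * X + ε * |X|) :=
        mul_le_mul h3 h2 (Real.exp_pos _).le (by positivity)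
    _ = ε⁻¹ * Real.exp (x₀ * X + 2 * ε * |X|) := by
        rw [mul_assoc, ← Real.exp_add]
        congr 2
        ring
    _ ≤ _ := mul_le_mul_of_nonneg_left h4 (by positivity)

/-- Holomorphy of `z ↦ ∫ exp (z X) h`. -/
theorem differentiableOn_integral_exp {X : Ω → ℝ} (hX : Measurable X) {h : Ω → ℂ}
    (hh : AEStronglyMeasurable h μ) {a : ℝ}
    (hint : ∀ t : ℝ, a < t → Integrable (fun ω => Real.exp (t * X ω) * ‖h ω‖) μ) :
    DifferentiableOn ℂ (fun z : ℂ => ∫ ω, Complex.exp (z * X ω) * h ω ∂μ) {z | a < z.re} := by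
  intro z₀ hz₀
  simp only [Set.mem_ofPred_eq] at hz₀
  set ε : ℝ := (z₀.re - a) / 3 with hε
  have hεpos : 0 < ε := by rw [hε]; linarith
  have hXc : Measurable fun ω => (X ω : ℂ) := Complex.measurable_ofReal.comp hX
  have hmeas : ∀ z : ℂ, AEStronglyMeasurable (fun ω => Complex.exp (z * X ω) * h ω) μ := fun z =>
    ((Complex.measurable_exp.comp (hXc.const_mul z)).aestronglyMeasurable).mul hh
  have hnorm : ∀ z : ℂ, ∀ ω, ‖Complex.exp (z * X ω) * h ω‖ = Real.exp (z.re * X ω) * ‖h ω‖ := by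
    intro z ω
    rw [norm_mul, Complex.norm_exp]
    simp
  have hintz : ∀ z : ℂ, a < z.re → Integrable (fun ω => Complex.exp (z * X ω) * h ω) μ := by
    intro z hz
    refine (integrable_norm_iff (hmeas z)).1 ?_
    simp only [hnorm]
    exact hint _ hz
  have key := hasDerivAt_integral_of_dominated_loc_of_deriv_le (μ := μ) (𝕜 := ℂ)
    (F := fun z ω => Complex.exp (z * X ω) * h ω)
    (F' := fun z ω => (X ω : ℂ) * Complex.exp (z * X ω) * h ω)
    (x₀ := z₀) (s := Metric.ball z₀ ε)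
    (bound := fun ω => ε⁻¹ * (Real.exp ((z₀.re + 2 * ε) * X ω) * ‖h ω‖ +
      Real.exp ((z₀.re - 2 * ε) * X ω) * ‖h ω‖))
    (Metric.ball_mem_nhds z₀ hεpos)
    (Eventually.of_forall hmeas) (hintz z₀ hz₀) ?_ ?_ ?_ ?_
  · exact key.2.differentiableAt.differentiableWithinAt
  · exact ((hXc.mul (Complex.measurable_exp.comp (hXc.const_mul z₀))).aestronglyMeasurable).mul hh
  · refine Eventually.of_forall fun ω z hz => ?_
    have h1 : |z.re - z₀.re| < ε := by
      have h2 : ‖z - z₀‖ < ε := by simpa [dist_eq_norm] using hz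
      have h3 := Complex.abs_re_le_norm (z - z₀)
      rw [Complex.sub_re] at h3
      linarith
    have h2 := abs_mul_exp_le (X := X ω) hεpos h1
    rw [mul_assoc, norm_mul, hnorm, ← mul_assoc, Complex.norm_real, Real.norm_eq_abs]
    calc |X ω| * Real.exp (z.re * X ω) * ‖h ω‖
        ≤ ε⁻¹ * (Real.exp ((z₀.re + 2 * ε) * X ω) + Real.exp ((z₀.re - 2 * ε) * X ω)) * ‖h ω‖ :=
          mul_le_mul_of_nonneg_right h2 (norm_nonneg _)
      _ = _ := by ring
  · refine ((hint _ ?_).add (hint _ ?_)).const_mul _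
    · linarith
    · rw [hε]; linarith
  · refine Eventually.of_forall fun ω z _ => ?_
    have h1 : HasDerivAt (fun z : ℂ => z * X ω) (X ω : ℂ) z := by
      simpa using (hasDerivAt_id z).mul_const (X ω : ℂ)
    have h2 := (h1.cexp).mul_const (h ω)
    have e : (X ω : ℂ) * Complex.exp (z * X ω) * h ω = Complex.exp (z * X ω) * (X ω : ℂ) * h ω := by
      ring
    rw [e]
    exact h2

/-- Identity theorem on a half plane. -/
theorem eq_of_eq_real {a : ℝ} {A B : ℂ → ℂ} (hA : DifferentiableOn ℂ A {z | a < z.re})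
    (hB : DifferentiableOn ℂ B {z | a < z.re}) {s₁ : ℝ} (h : ∀ s : ℝ, s₁ ≤ s → A s = B s) :
    ∀ z : ℂ, a < z.re → A z = B z := by
  have hopen : IsOpen {z : ℂ | a < z.re} := isOpen_lt continuous_const Complex.continuous_re
  have hconn : IsPreconnected {z : ℂ | a < z.re} :=
    (convex_halfSpace_re_gt a).isPreconnected
  set t : ℝ := max s₁ a + 1 with ht
  have ht1 : s₁ < t := lt_of_le_of_lt (le_max_left s₁ a) (lt_add_one _)
  have ht2 : a < t := lt_of_le_of_lt (le_max_right s₁ a) (lt_add_one _)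
  have hfreq : ∃ᶠ z in 𝓝[≠] (t : ℂ), A z = B z := by
    have h1 : Tendsto (fun k : ℕ => ((t + 1 / (k + 1) : ℝ) : ℂ)) atTop (𝓝[≠] (t : ℂ)) := by
      rw [tendsto_nhdsWithin_iff]
      refine ⟨?_, Eventually.of_forall fun k => ?_⟩
      · have h2 : Tendsto (fun k : ℕ => (t + 1 / ((k : ℝ) + 1))) atTop (𝓝 (t + 0)) :=
          tendsto_const_nhds.add tendsto_one_div_add_atTop_nhds_zero_nat
        rw [add_zero] at h2
        exact (Complex.continuous_ofReal.tendsto t).comp h2
      · simp only [Set.mem_compl_iff, Set.mem_singleton_iff]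
        intro h3
        have h4 : (t + 1 / ((k : ℝ) + 1)) = t := by exact_mod_cast h3
        have h5 : (0 : ℝ) < 1 / ((k : ℝ) + 1) := by positivity
        linarith
    refine h1.frequently (Eventually.frequently (Eventually.of_forall fun k => ?_))
    refine h _ ?_
    have h5 : (0 : ℝ) < 1 / ((k : ℝ) + 1) := by positivity
    linarith
  exact AnalyticOnNhd.eqOn_of_preconnected_of_frequently_eq (hA.analyticOnNhd hopen)
    (hB.analyticOnNhd hopen) hconn (show (t : ℂ) ∈ {z : ℂ | a < z.re} by simpa using ht2) hfreq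

end MPb07157.Lct
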