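import Mathlib

/-!
# Integration by parts against `f^{s+1-k} conj(f)^s`
-/

noncomputable section

namespace MPb07157.Lct

open MeasureTheory Filter Topology MvPolynomial
open scoped ComplexConjugate ContDiff

variable {n : ℕ}

/-! ### Polynomials as smooth functions -/

theorem contDiff_evalP (P : MvPolynomial (Fin n) ℂ) :
    ContDiff ℝ ∞ fun x : Fin n → ℂ => eval x P := by
  induction P using MvPolynomial.induction_on with
  | C a => simpa using contDiff_const
  | add p q hp hq => simpa using hp.add hq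
  | mul_X p i hp =>
    have h : ContDiff ℝ ∞ fun x : Fin n → ℂ => x i := contDiff_apply ℝ ℂ i
    simpa using hp.mul h

/-- The differential of a polynomial. -/
def dP (P : MvPolynomial (Fin n) ℂ) (x v : Fin n → ℂ) : ℂ :=
  ∑ j, eval x (pderiv j P) * v j

theorem hasLineDerivAt_evalP (P : MvPolynomial (Fin n) ℂ) (x v : Fin n → ℂ) :
    HasLineDerivAt ℝ (fun x : Fin n → ℂ => eval x P) (dP P x v) x v := by
  unfold HasLineDerivAt
  induction P using MvPolynomial.induction_on with
  | C a => simpa [dP] using hasDerivAt_const (0 : ℝ) a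
  | add p q hp hq =>
    have h := hp.fun_add hq
    have e : dP (p + q) x v = dP p x v + dP q x v := by
      unfold dP
      rw [← Finset.sum_add_distrib]
      refine Finset.sum_congr rfl fun j _ => ?_
      rw [map_add, map_add]
      ring
    rw [e]
    simpa using h
  | mul_X p i hp =>
    have h1 : HasDerivAt (fun t : ℝ => x i + t • v i) (v i) 0 := by
      simpa using ((hasDerivAt_id (0 : ℝ)).smul_const (v i)).const_add (x i)
    have h := hp.fun_mul h1
    have e : dP (p * X i) x v = dP p x v * x i + eval x p * v i := by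
      classical
      unfold dP
      have e1 : ∀ j, eval x (pderiv j (p * X i)) * v j =
          (eval x (pderiv j p) * v j) * x i + (if j = i then eval x p * v i else 0) := by
        intro j
        rw [Derivation.leibniz, pderiv_X, Pi.single_apply]
        simp only [smul_eq_mul, map_add, map_mul, eval_X]
        by_cases hj : j = i
        · subst hj
          simp
          ring
        · rw [if_neg (fun h => hj h), if_neg (fun h => hj h.symm)]
          simp
          ring
      rw [Finset.sum_congr rfl fun j _ => e1 j, Finset.sum_add_distrib, ← Finset.sum_mul]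
      simp
    rw [e]
    simpa using h

theorem dP_single (P : MvPolynomial (Fin n) ℂ) (x : Fin n → ℂ) (i : Fin n) (c : ℂ) :
    dP P x (Pi.single i c) = eval x (pderiv i P) * c := by
  classical
  unfold dP
  rw [Finset.sum_eq_single i]
  · simp
  · intro j _ hj
    rw [Pi.single_apply, if_neg hj, mul_zero]
  · intro h
    exact absurd (Finset.mem_univ i) h

/-! ### Test functions -/

/-- Smooth functions which vanish outside the compact set `K`. -/
structure IsTest (K : Set (Fin n → ℂ)) (φ : (Fin n → ℂ) → ℂ) : Prop where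
  smooth : ContDiff ℝ ∞ φ
  comp : IsCompact K
  zero : ∀ x ∉ K, φ x = 0

/-- The derivative `∂/∂x_i = (∂/∂(Re x_i) - i ∂/∂(Im x_i)) / 2`. -/
def wder (i : Fin n) (φ : (Fin n → ℂ) → ℂ) (x : Fin n → ℂ) : ℂ :=
  (1 / 2) * (fderiv ℝ φ x (Pi.single i 1) - Complex.I * fderiv ℝ φ x (Pi.single i Complex.I))

variable {K : Set (Fin n → ℂ)}

theorem IsTest.hasCompactSupport {φ : (Fin n → ℂ) → ℂ} (h : IsTest K φ) : HasCompactSupport φ :=
  HasCompactSupport.intro h.comp h.zero

theorem IsTest.fderiv_apply {φ : (Fin n → ℂ) → ℂ} (h : IsTest K φ) (v : Fin n → ℂ) :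
    IsTest K fun x => fderiv ℝ φ x v := by
  refine ⟨h.1.fderiv_right (m := ∞) (by simp) |>.clm_apply contDiff_const, h.comp, fun x hx => ?_⟩
  have h1 : φ =ᶠ[𝓝 x] fun _ => 0 := by
    filter_upwards [h.comp.isClosed.isOpen_compl.mem_nhds hx] with y hy
    exact h.zero y hy
  rw [h1.fderiv_eq]
  simp

theorem IsTest.const_mul {φ : (Fin n → ℂ) → ℂ} (h : IsTest K φ) (c : ℂ) :
    IsTest K fun x => c * φ x :=
  ⟨contDiff_const.mul h.1, h.comp, fun x hx => by rw [h.zero x hx, mul_zero]⟩

theorem IsTest.sub {φ ψ : (Fin n → ℂ) → ℂ} (h : IsTest K φ) (h' : IsTest K ψ) :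
    IsTest K fun x => φ x - ψ x :=
  ⟨h.1.sub h'.1, h.comp, fun x hx => by rw [h.zero x hx, h'.zero x hx, sub_zero]⟩

theorem IsTest.wder {φ : (Fin n → ℂ) → ℂ} (h : IsTest K φ) (i : Fin n) : IsTest K (wder i φ) := by
  have h1 := ((h.fderiv_apply (Pi.single i 1)).sub
    ((h.fderiv_apply (Pi.single i Complex.I)).const_mul Complex.I)).const_mul (1 / 2)
  exact h1

theorem IsTest.evalP_mul {φ : (Fin n → ℂ) → ℂ} (h : IsTest K φ) (P : MvPolynomial (Fin n) ℂ) :
    IsTest K fun x => eval x P * φ x :=
  ⟨(contDiff_evalP P).mul h.1, h.comp, fun x hx => by rw [h.zero x hx, mul_zero]⟩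

theorem IsTest.continuous {φ : (Fin n → ℂ) → ℂ} (h : IsTest K φ) : Continuous φ := h.1.continuous

theorem IsTest.integrable_mul {φ u : (Fin n → ℂ) → ℂ} (h : IsTest K φ) (hu : Continuous u) :
    Integrable (fun x => u x * φ x) := by
  refine (hu.mul h.continuous).integrable_of_hasCompactSupport ?_
  have := h.hasCompactSupport.mul_left (f := u)
  exact this

/-- Integration by parts. -/
theorem integral_mul_wder {u u₁ u₂ φ : (Fin n → ℂ) → ℂ} (i : Fin n) (hφ : IsTest K φ)
    (hu : Continuous u) (hu₁ : Continuous u₁) (hu₂ : Continuous u₂)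
    (h₁ : ∀ x, HasLineDerivAt ℝ u (u₁ x) x (Pi.single i 1))
    (h₂ : ∀ x, HasLineDerivAt ℝ u (u₂ x) x (Pi.single i Complex.I)) :
    ∫ x, u x * wder i φ x = - ∫ x, ((1 / 2) * (u₁ x - Complex.I * u₂ x)) * φ x := by
  have key : ∀ (v : Fin n → ℂ) (w : (Fin n → ℂ) → ℂ), Continuous w →
      (∀ x, HasLineDerivAt ℝ u (w x) x v) →
      ∫ x, u x * fderiv ℝ φ x v = - ∫ x, w x * φ x := by
    intro v w hw h
    have hd : ∀ x, HasLineDerivAt ℝ φ (fderiv ℝ φ x v) x v := fun x =>
      ((hφ.1.differentiable (by simp)) x).hasFDerivAt.hasLineDerivAt v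
    exact integral_bilinear_hasLineDerivAt_right_eq_neg_left_of_integrable
      (B := ContinuousLinearMap.mul ℝ ℂ) (f := u) (f' := w) (g := φ)
      (g' := fun x => fderiv ℝ φ x v)
      (hφ.integrable_mul hw) ((hφ.fderiv_apply v).integrable_mul hu) (hφ.integrable_mul hu)
      (fun x _ => h x) (fun x _ => hd x)
  have e1 := key _ _ hu₁ h₁
  have e2 := key _ _ hu₂ h₂
  have i1 := (hφ.fderiv_apply (Pi.single i 1)).integrable_mul hu
  have i2 := (hφ.fderiv_apply (Pi.single i Complex.I)).integrable_mul hu
  have i3 := hφ.integrable_mul hu₁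
  have i4 := hφ.integrable_mul hu₂
  calc ∫ x, u x * wder i φ x
      = ∫ x, (1 / 2) * (u x * fderiv ℝ φ x (Pi.single i 1) -
          Complex.I * (u x * fderiv ℝ φ x (Pi.single i Complex.I))) := by
        refine integral_congr_ae (Eventually.of_forall fun x => ?_)
        simp only [wder]
        ring
    _ = (1 / 2) * ((∫ x, u x * fderiv ℝ φ x (Pi.single i 1)) -
          Complex.I * ∫ x, u x * fderiv ℝ φ x (Pi.single i Complex.I)) := by
        rw [integral_const_mul, integral_sub i1 (i2.const_mul _), integral_const_mul]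
    _ = - ((1 / 2) * ((∫ x, u₁ x * φ x) - Complex.I * ∫ x, u₂ x * φ x)) := by
        rw [e1, e2]
        ring
    _ = - ∫ x, (1 / 2) * (u₁ x * φ x - Complex.I * (u₂ x * φ x)) := by
        rw [integral_const_mul, integral_sub i3 (i4.const_mul _), integral_const_mul]
    _ = _ := by
        congr 1
        refine integral_congr_ae (Eventually.of_forall fun x => ?_)
        simp only
        ring

end MPb07157.Lct
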