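import Pool.Agent.Lib.MP_b07157_ag.Defs
import Pool.Agent.Lib.MP_b07157_agL.Lb

/-!
# The functional equation for the integrals `∫ |f|^{2s} φ`
-/

noncomputable section

namespace MPb07157.Lct

open MeasureTheory Filter Topology MvPolynomial
open scoped ComplexConjugate ContDiff

variable {n : ℕ}

/-- `|f(x)|^2`. -/
def NN (f : MvPolynomial (Fin n) ℂ) (x : Fin n → ℂ) : ℝ := Complex.normSq (eval x f)

/-- `f · conj(f)^k · |f|^{2(s-k)}`, which is `f^{s+1-k} conj(f)^s`. -/
def WW (f : MvPolynomial (Fin n) ℂ) (k : ℕ) (s : ℝ) (x : Fin n → ℂ) : ℂ :=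
  eval x f * conj (eval x f) ^ k * ((NN f x ^ (s - k) : ℝ) : ℂ)

theorem continuous_evalP (P : MvPolynomial (Fin n) ℂ) :
    Continuous fun x : Fin n → ℂ => eval x P := (contDiff_evalP P).continuous

theorem continuous_NN (f : MvPolynomial (Fin n) ℂ) : Continuous (NN f) :=
  Complex.continuous_normSq.comp (continuous_evalP f)

theorem NN_nonneg (f : MvPolynomial (Fin n) ℂ) (x : Fin n → ℂ) : 0 ≤ NN f x :=
  Complex.normSq_nonneg _

theorem continuous_NN_rpow (f : MvPolynomial (Fin n) ℂ) {p : ℝ} (hp : 0 ≤ p) :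
    Continuous fun x => ((NN f x ^ p : ℝ) : ℂ) :=
  Complex.continuous_ofReal.comp ((continuous_NN f).rpow_const fun _ => Or.inr hp)

theorem continuous_WW (f : MvPolynomial (Fin n) ℂ) {k : ℕ} {s : ℝ} (h : (k : ℝ) ≤ s) :
    Continuous (WW f k s) :=
  ((continuous_evalP f).mul ((Complex.continuous_conj.comp (continuous_evalP f)).pow k)).mul
    (continuous_NN_rpow f (by linarith))

theorem ofReal_NN (f : MvPolynomial (Fin n) ℂ) (x : Fin n → ℂ) :
    ((NN f x : ℝ) : ℂ) = eval x f * conj (eval x f) := by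
  unfold NN
  rw [Complex.mul_conj]

theorem NN_rpow_succ (f : MvPolynomial (Fin n) ℂ) (x : Fin n → ℂ) {p : ℝ} (hp : 1 ≤ p) :
    ((NN f x ^ p : ℝ) : ℂ) = eval x f * conj (eval x f) * ((NN f x ^ (p - 1) : ℝ) : ℂ) := by
  rw [← ofReal_NN, ← Complex.ofReal_mul]
  congr 1
  rcases (NN_nonneg f x).eq_or_lt with h | h
  · rw [← h, Real.zero_rpow (by linarith), zero_mul]
  · rw [Real.rpow_sub_one h.ne']
    field_simp

theorem WW_succ (f : MvPolynomial (Fin n) ℂ) {k : ℕ} {s : ℝ} (h : (k : ℝ) + 1 ≤ s)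
    (x : Fin n → ℂ) : eval x f * WW f (k + 1) s x = WW f k s x := by
  unfold WW
  rw [NN_rpow_succ f x (p := s - k) (by linarith)]
  push_cast
  rw [show s - (k : ℝ) - 1 = s - (k + 1) by ring]
  ring

/-! ### Derivatives -/

/-- The coefficient of the differential of `P` in the differential of `P · W`. -/
def ca (f : MvPolynomial (Fin n) ℂ) (k : ℕ) (p : ℝ) (x : Fin n → ℂ) : ℂ :=
  eval x f * conj (eval x f) ^ k * ((NN f x ^ p : ℝ) : ℂ)

/-- The coefficient of the differential of `f`. -/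
def cb (f P : MvPolynomial (Fin n) ℂ) (k : ℕ) (p : ℝ) (x : Fin n → ℂ) : ℂ :=
  eval x P * (conj (eval x f) ^ k * ((NN f x ^ p : ℝ) : ℂ) +
    eval x f * conj (eval x f) ^ k * (p * ((NN f x ^ (p - 1) : ℝ) : ℂ) * conj (eval x f)))

/-- The coefficient of the conjugate of the differential of `f`. -/
def cc' (f P : MvPolynomial (Fin n) ℂ) (k : ℕ) (p : ℝ) (x : Fin n → ℂ) : ℂ :=
  eval x P * (eval x f * (k * conj (eval x f) ^ (k - 1)) * ((NN f x ^ p : ℝ) : ℂ) +
    eval x f * conj (eval x f) ^ k * (p * ((NN f x ^ (p - 1) : ℝ) : ℂ) * eval x f))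

theorem continuous_ca (f : MvPolynomial (Fin n) ℂ) (k : ℕ) {p : ℝ} (hp : 1 ≤ p) :
    Continuous (ca f k p) :=
  ((continuous_evalP f).mul ((Complex.continuous_conj.comp (continuous_evalP f)).pow k)).mul
    (continuous_NN_rpow f (by linarith))

theorem continuous_cb (f P : MvPolynomial (Fin n) ℂ) (k : ℕ) {p : ℝ} (hp : 1 ≤ p) :
    Continuous (cb f P k p) := by
  have h1 := continuous_evalP f
  have h2 : Continuous fun x : Fin n → ℂ => conj (eval x f) :=
    Complex.continuous_conj.comp (continuous_evalP f)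
  have h3 := continuous_NN_rpow f (p := p) (by linarith)
  have h4 := continuous_NN_rpow f (p := p - 1) (by linarith)
  exact (continuous_evalP P).mul (((h2.pow k).mul h3).add ((h1.mul (h2.pow k)).mul
    ((continuous_const.mul h4).mul h2)))

theorem continuous_cc' (f P : MvPolynomial (Fin n) ℂ) (k : ℕ) {p : ℝ} (hp : 1 ≤ p) :
    Continuous (cc' f P k p) := by
  have h1 := continuous_evalP f
  have h2 : Continuous fun x : Fin n → ℂ => conj (eval x f) :=
    Complex.continuous_conj.comp (continuous_evalP f)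
  have h3 := continuous_NN_rpow f (p := p) (by linarith)
  have h4 := continuous_NN_rpow f (p := p - 1) (by linarith)
  exact (continuous_evalP P).mul (((h1.mul (continuous_const.mul (h2.pow (k - 1)))).mul h3).add
    ((h1.mul (h2.pow k)).mul ((continuous_const.mul h4).mul h1)))

theorem hasDerivAt_conj_comp {u : ℝ → ℂ} {u' : ℂ} {t : ℝ} (h : HasDerivAt u u' t) :
    HasDerivAt (fun t => conj (u t)) (conj u') t := by
  have h1 := (Complex.conjCLE.toContinuousLinearMap.hasFDerivAt (x := u t)).comp_hasDerivAt t h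
  exact h1

theorem hasDerivAt_normSq_comp {u : ℝ → ℂ} {u' : ℂ} {t : ℝ} (h : HasDerivAt u u' t) :
    HasDerivAt (fun t => Complex.normSq (u t)) ((u' * conj (u t) + u t * conj u').re) t := by
  have h1 := h.fun_mul (hasDerivAt_conj_comp h)
  have h2 := (Complex.reCLM.hasFDerivAt (x := u t * conj (u t))).comp_hasDerivAt t h1
  have e : (fun t => Complex.normSq (u t)) = fun t => (u t * conj (u t)).re := by
    funext t
    rw [Complex.mul_conj]
    simp
  rw [e]
  exact h2

theorem ofReal_re_add_conj (L F : ℂ) :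
    (((L * conj F + F * conj L).re : ℝ) : ℂ) = L * conj F + F * conj L := by
  apply Complex.ext
  · simp
  · simp
    ring

theorem hasLineDerivAt_mul_WW (f P : MvPolynomial (Fin n) ℂ) {k : ℕ} {s : ℝ}
    (h : (k : ℝ) + 1 ≤ s) (x v : Fin n → ℂ) :
    HasLineDerivAt ℝ (fun x => eval x P * WW f k s x)
      (ca f k (s - k) x * dP P x v + cb f P k (s - k) x * dP f x v +
        cc' f P k (s - k) x * conj (dP f x v)) x v := by
  have h1 := hasLineDerivAt_evalP P x v
  have h2 := hasLineDerivAt_evalP f x v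
  unfold HasLineDerivAt at h1 h2 ⊢
  have h3 := (hasDerivAt_conj_comp h2).fun_pow k
  have h5 := (hasDerivAt_normSq_comp h2).rpow_const (p := s - k) (Or.inr (by linarith))
  have h6 := h5.ofReal_comp
  have h7 := h1.fun_mul ((h2.fun_mul h3).fun_mul h6)
  refine HasDerivAt.congr_deriv (f := fun t : ℝ => (fun x => eval x P * WW f k s x) (x + t • v))
    h7 ?_
  beta_reduce
  rw [zero_smul, add_zero]
  unfold ca cb cc' NN
  push_cast
  rw [ofReal_re_add_conj]
  ring

/-- The derivative `∂/∂x_i` of `P f^{s+1-k} conj(f)^s`. -/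
theorem deriv_formula (f P : MvPolynomial (Fin n) ℂ) {k : ℕ} {s : ℝ}
    (h : (k : ℝ) + 1 ≤ s) (x : Fin n → ℂ) (i : Fin n) :
    (1 / 2) * ((ca f k (s - k) x * dP P x (Pi.single i 1) +
      cb f P k (s - k) x * dP f x (Pi.single i 1) +
        cc' f P k (s - k) x * conj (dP f x (Pi.single i 1))) -
      Complex.I * (ca f k (s - k) x * dP P x (Pi.single i Complex.I) +
      cb f P k (s - k) x * dP f x (Pi.single i Complex.I) +
        cc' f P k (s - k) x * conj (dP f x (Pi.single i Complex.I)))) =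
    (eval x f * eval x (pderiv i P) + ((s : ℂ) + 1 - k) * eval x (pderiv i f) * eval x P) *
      WW f (k + 1) s x := by
  simp only [dP_single, map_mul, map_one, Complex.conj_I]
  have e1 : ((NN f x ^ (s - k) : ℝ) : ℂ) =
      eval x f * conj (eval x f) * ((NN f x ^ (s - k - 1) : ℝ) : ℂ) :=
    NN_rpow_succ f x (by linarith)
  have e2 : WW f (k + 1) s x = eval x f * conj (eval x f) ^ (k + 1) *
      ((NN f x ^ (s - k - 1) : ℝ) : ℂ) := by
    unfold WW
    push_cast
    rw [show s - (k : ℝ) - 1 = s - (k + 1) by ring]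
  rw [e2]
  unfold ca cb
  rw [e1]
  have hI : Complex.I * Complex.I = -1 := Complex.I_mul_I
  push_cast
  linear_combination (-(1 / 2) * ((eval x f * conj (eval x f) ^ k *
    (eval x f * conj (eval x f) * ((NN f x ^ (s - k - 1) : ℝ) : ℂ))) * eval x (pderiv i P) +
    eval x P * (conj (eval x f) ^ k *
      (eval x f * conj (eval x f) * ((NN f x ^ (s - k - 1) : ℝ) : ℂ)) +
    eval x f * conj (eval x f) ^ k * (((s : ℂ) - k) * ((NN f x ^ (s - k - 1) : ℝ) : ℂ) *
      conj (eval x f))) * eval x (pderiv i f) -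
    cc' f P k (s - k) x * conj (eval x (pderiv i f)))) * hI

end MPb07157.Lct
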