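import Pool.Agent.Lib.MP_b07157_agL.La
import Pool.Agent.Lib.MP_b07157_agL.Lc

/-!
# The functional equation: induction over the operators
-/

noncomputable section

namespace MPb07157.Lct

open MeasureTheory Filter Topology MvPolynomial
open scoped ComplexConjugate ContDiff

variable {n : ℕ} {K : Set (Fin n → ℂ)}

/-- Combinations, with coefficients in `ℂ[s]`, of the integrals `∫ f |f|^{2s} ψ` with test functions
`ψ`, up to equality for large `s`. -/
inductive Good (K : Set (Fin n → ℂ)) (f : MvPolynomial (Fin n) ℂ) : (ℝ → ℂ) → Prop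
  | base {ψ : (Fin n → ℂ) → ℂ} (h : IsTest K ψ) : Good K f fun s => ∫ x, WW f 0 s x * ψ x
  | add {A B : ℝ → ℂ} : Good K f A → Good K f B → Good K f fun s => A s + B s
  | poly {A : ℝ → ℂ} (p : Polynomial ℂ) : Good K f A → Good K f fun s => p.eval (s : ℂ) * A s
  | congr {A B : ℝ → ℂ} : Good K f A → (∀ᶠ s in atTop, A s = B s) → Good K f B

/-- Specialization of `s`. -/
def gs (g : MvPolynomial (Fin n) (Polynomial ℂ)) (s : ℂ) : MvPolynomial (Fin n) ℂ :=
  map (Polynomial.evalRingHom s) g

theorem gs_liftS (f : MvPolynomial (Fin n) ℂ) (s : ℂ) : gs (liftS f) s = f := by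
  unfold gs liftS
  rw [MvPolynomial.map_map]
  have : (Polynomial.evalRingHom s).comp Polynomial.C = RingHom.id ℂ := by
    ext x
    simp
  rw [this, MvPolynomial.map_id]

/-- The pairing of `g f^{s+1-k} conj(f)^s` with a test function. -/
def pair (f : MvPolynomial (Fin n) ℂ) (k : ℕ) (g : MvPolynomial (Fin n) (Polynomial ℂ))
    (φ : (Fin n → ℂ) → ℂ) (s : ℝ) : ℂ :=
  ∫ x, eval x (gs g s) * WW f k s x * φ x

theorem integrable_pair (f : MvPolynomial (Fin n) ℂ) {k : ℕ}
    (P : MvPolynomial (Fin n) ℂ) {φ : (Fin n → ℂ) → ℂ} (hφ : IsTest K φ) {s : ℝ}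
    (h : (k : ℝ) ≤ s) : Integrable fun x => eval x P * WW f k s x * φ x :=
  hφ.integrable_mul ((continuous_evalP P).mul (continuous_WW f h))

theorem good_add {f : MvPolynomial (Fin n) ℂ} {k : ℕ}
    {g h : MvPolynomial (Fin n) (Polynomial ℂ)} {φ : (Fin n → ℂ) → ℂ} (hφ : IsTest K φ)
    (h1 : Good K f (pair f k g φ)) (h2 : Good K f (pair f k h φ)) : Good K f (pair f k (g + h) φ) := by
  refine (h1.add h2).congr ?_
  filter_upwards [eventually_ge_atTop (k : ℝ)] with s hs
  unfold pair
  rw [← integral_add (integrable_pair f _ hφ hs) (integrable_pair f _ hφ hs)]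
  refine integral_congr_ae (Eventually.of_forall fun x => ?_)
  simp only [gs, map_add]
  ring

theorem good_mul {f : MvPolynomial (Fin n) ℂ} {k : ℕ} (c : MvPolynomial (Fin n) (Polynomial ℂ)) :
    ∀ {g : MvPolynomial (Fin n) (Polynomial ℂ)}, (∀ φ, IsTest K φ → Good K f (pair f k g φ)) →
    ∀ φ, IsTest K φ → Good K f (pair f k (c * g) φ) := by
  induction c using MvPolynomial.induction_on with
  | C p =>
    intro g hg φ hφ
    refine ((hg φ hφ).poly p).congr (Eventually.of_forall fun s => ?_)
    unfold pair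
    rw [← integral_const_mul]
    refine integral_congr_ae (Eventually.of_forall fun x => ?_)
    simp only [gs, map_mul, map_C, Polynomial.coe_evalRingHom, eval_C]
    ring
  | add p q hp hq =>
    intro g hg φ hφ
    rw [add_mul]
    exact good_add hφ (hp hg φ hφ) (hq hg φ hφ)
  | mul_X p j hp =>
    intro g hg φ hφ
    have h1 := hp hg _ (hφ.evalP_mul (X j))
    refine h1.congr (Eventually.of_forall fun s => ?_)
    unfold pair
    refine integral_congr_ae (Eventually.of_forall fun x => ?_)
    simp only [gs, map_mul, map_X, eval_X]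
    ring

theorem good_deriv {f : MvPolynomial (Fin n) ℂ} {k : ℕ}
    {g : MvPolynomial (Fin n) (Polynomial ℂ)} (i : Fin n)
    (hg : ∀ φ, IsTest K φ → Good K f (pair f k g φ)) (φ : (Fin n → ℂ) → ℂ) (hφ : IsTest K φ) :
    Good K f (pair f (k + 1) (liftS f * pderiv i g +
      C (Polynomial.X + 1 - (k : Polynomial ℂ)) * liftS (pderiv i f) * g) φ) := by
  refine ((hg _ (hφ.wder i)).poly (Polynomial.C (-1))).congr ?_
  filter_upwards [eventually_ge_atTop ((k : ℝ) + 2)] with s hs
  have hs1 : (k : ℝ) + 1 ≤ s := by linarith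
  have hp : (1 : ℝ) ≤ s - k := by linarith
  set P := gs g s with hP
  have hcont : ∀ c : ℂ, Continuous fun x => ca f k (s - k) x * dP P x (Pi.single i c) +
      cb f P k (s - k) x * dP f x (Pi.single i c) +
        cc' f P k (s - k) x * conj (dP f x (Pi.single i c)) := by
    intro c
    simp only [dP_single]
    exact (((continuous_ca f k hp).mul ((continuous_evalP _).mul continuous_const)).add
      ((continuous_cb f P k hp).mul ((continuous_evalP _).mul continuous_const))).add
      ((continuous_cc' f P k hp).mul (Complex.continuous_conj.comp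
        ((continuous_evalP _).mul continuous_const)))
  have h1 := integral_mul_wder (u := fun x => eval x P * WW f k s x) i hφ
    ((continuous_evalP P).mul (continuous_WW f (by linarith))) (hcont 1) (hcont Complex.I)
    (fun x => hasLineDerivAt_mul_WW f P hs1 x _) (fun x => hasLineDerivAt_mul_WW f P hs1 x _)
  unfold pair
  rw [Polynomial.eval_C, h1, neg_mul, one_mul, neg_neg]
  refine integral_congr_ae (Eventually.of_forall fun x => ?_)
  beta_reduce
  rw [deriv_formula f P hs1 x i]
  congr 2
  have e1 : gs (liftS f * pderiv i g + C (Polynomial.X + 1 - (k : Polynomial ℂ)) *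
      liftS (pderiv i f) * g) s = f * pderiv i P + C ((s : ℂ) + 1 - k) * pderiv i f * P := by
    have e2 := gs_liftS f s
    have e3 := gs_liftS (pderiv i f) s
    unfold gs at e2 e3 hP ⊢
    rw [map_add, map_mul, map_mul, map_mul, e2, e3, map_C, ← pderiv_map, ← hP]
    congr 3
    simp
  rw [e1]
  simp

theorem pair_raise (f : MvPolynomial (Fin n) ℂ) (k : ℕ)
    (g : MvPolynomial (Fin n) (Polynomial ℂ)) (φ : (Fin n → ℂ) → ℂ) :
    ∀ᶠ s in atTop, pair f (k + 1) (liftS f * g) φ s = pair f k g φ s := by
  filter_upwards [eventually_ge_atTop ((k : ℝ) + 1)] with s hs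
  unfold pair
  refine integral_congr_ae (Eventually.of_forall fun x => ?_)
  have e1 : gs (liftS f * g) s = f * gs g s := by
    have e2 := gs_liftS f s
    unfold gs at e2 ⊢
    rw [map_mul, e2]
  beta_reduce
  rw [e1, map_mul, ← WW_succ f hs x]
  ring

theorem good_of_inDn {f : MvPolynomial (Fin n) ℂ} {k : ℕ}
    {g : MvPolynomial (Fin n) (Polynomial ℂ)} (h : InDn f k g) :
    ∀ φ, IsTest K φ → Good K f (pair f k g φ) := by
  induction h with
  | base =>
    intro φ hφ
    refine (Good.base hφ).congr (Eventually.of_forall fun s => ?_)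
    unfold pair
    refine integral_congr_ae (Eventually.of_forall fun x => ?_)
    simp [gs]
  | add _ _ ih1 ih2 => exact fun φ hφ => good_add hφ (ih1 φ hφ) (ih2 φ hφ)
  | mul c _ ih => exact good_mul c ih
  | deriv i _ ih => exact good_deriv i ih
  | raise _ ih => exact fun φ hφ => (ih φ hφ).congr ((pair_raise f _ _ φ).mono fun s hs => hs.symm)
  | lower _ ih => exact fun φ hφ => (ih φ hφ).congr (pair_raise f _ _ φ)

/-- The functional equation, for large real `s`. -/
theorem good_of_isBernsteinSato {f : MvPolynomial (Fin n) ℂ} {b : Polynomial ℂ}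
    (h : IsBernsteinSato f b) {φ : (Fin n → ℂ) → ℂ} (hφ : IsTest K φ) :
    Good K f fun s => b.eval (s : ℂ) * ∫ x, ((NN f x ^ s : ℝ) : ℂ) * φ x := by
  refine (good_of_inDn h φ hφ).congr ?_
  filter_upwards [eventually_ge_atTop (1 : ℝ)] with s hs
  unfold pair
  rw [← integral_const_mul]
  refine integral_congr_ae (Eventually.of_forall fun x => ?_)
  have e1 := NN_rpow_succ f x hs
  beta_reduce
  rw [e1]
  unfold WW gs
  simp only [map_C, eval_C, Polynomial.coe_evalRingHom, Nat.cast_one, pow_one]
  ring

end MPb07157.Lct
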