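import Pool.Agent.Lib.MP_b07157_agL.Ld

/-!
# The log canonical threshold gives a root
-/

noncomputable section

namespace MPb07157.Lct

open MeasureTheory Filter Topology MvPolynomial
open scoped ComplexConjugate ContDiff

variable {n : ℕ} {K : Set (Fin n → ℂ)}

/-- The complement of the zero set. -/
def ZZ (f : MvPolynomial (Fin n) ℂ) : Set (Fin n → ℂ) := {x | eval x f ≠ 0}

theorem isOpen_ZZ (f : MvPolynomial (Fin n) ℂ) : IsOpen (ZZ f) :=
  isOpen_ne_fun (continuous_evalP f) continuous_const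

theorem measurableSet_ZZ (f : MvPolynomial (Fin n) ℂ) : MeasurableSet (ZZ f) :=
  (isOpen_ZZ f).measurableSet

theorem NN_pos {f : MvPolynomial (Fin n) ℂ} {x : Fin n → ℂ} (hx : x ∈ ZZ f) : 0 < NN f x :=
  Complex.normSq_pos.2 hx

theorem NN_zero {f : MvPolynomial (Fin n) ℂ} {x : Fin n → ℂ} (hx : x ∉ ZZ f) : NN f x = 0 := by
  unfold ZZ at hx
  simp only [Set.mem_ofPred_eq, not_not] at hx
  unfold NN
  rw [hx, map_zero]

theorem norm_eval_eq (f : MvPolynomial (Fin n) ℂ) (x : Fin n → ℂ) :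
    ‖eval x f‖ = NN f x ^ (1 / 2 : ℝ) := by
  unfold NN
  rw [Complex.normSq_eq_norm_sq, ← Real.sqrt_eq_rpow, Real.sqrt_sq (norm_nonneg _)]

/-- The logarithm of `|f|^2`. -/
def lg (f : MvPolynomial (Fin n) ℂ) (x : Fin n → ℂ) : ℝ := Real.log (NN f x)

theorem measurable_lg (f : MvPolynomial (Fin n) ℂ) : Measurable (lg f) :=
  Real.measurable_log.comp (continuous_NN f).measurable

theorem exp_lg {f : MvPolynomial (Fin n) ℂ} {x : Fin n → ℂ} (hx : x ∈ ZZ f) (t : ℝ) :
    Real.exp (t * lg f x) = NN f x ^ t := by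
  unfold lg
  rw [Real.rpow_def_of_pos (NN_pos hx), mul_comm]

theorem cexp_lg {f : MvPolynomial (Fin n) ℂ} {x : Fin n → ℂ} (hx : x ∈ ZZ f) (t : ℝ) :
    Complex.exp ((t : ℂ) * (lg f x : ℝ)) = ((NN f x ^ t : ℝ) : ℂ) := by
  rw [← exp_lg hx, Complex.ofReal_exp]
  push_cast
  rfl

/-- The integral `∫ |f|^{2z} h`. -/
def JJ (f : MvPolynomial (Fin n) ℂ) (h : (Fin n → ℂ) → ℂ) (z : ℂ) : ℂ :=
  ∫ x, Complex.exp (z * lg f x) * h x ∂(volume.restrict (ZZ f))

theorem JJ_ofReal (f : MvPolynomial (Fin n) ℂ) (h : (Fin n → ℂ) → ℂ) {s : ℝ} (hs : s ≠ 0) :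
    JJ f h s = ∫ x, ((NN f x ^ s : ℝ) : ℂ) * h x := by
  have h1 : ∀ x, x ∉ ZZ f → ((NN f x ^ s : ℝ) : ℂ) * h x = 0 := by
    intro x hx
    rw [NN_zero hx, Real.zero_rpow hs]
    simp
  unfold JJ
  rw [← setIntegral_eq_integral_of_forall_compl_eq_zero h1]
  refine setIntegral_congr_fun (measurableSet_ZZ f) fun x hx => ?_
  simp only [cexp_lg hx]

/-- Integrability. -/
theorem integrable_exp_lg {f : MvPolynomial (Fin n) ℂ} {h : (Fin n → ℂ) → ℂ} {c₀ e C : ℝ}
    (hK : MeasurableSet K) (hh : Continuous h)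
    (hint : ∀ t : ℝ, -c₀ < t → IntegrableOn (fun x => NN f x ^ t) K)
    (h0 : ∀ x ∉ K, h x = 0) (h1 : ∀ x ∈ K, ‖h x‖ ≤ C * NN f x ^ e) {t : ℝ} (ht : -c₀ - e < t) :
    Integrable (fun x => Real.exp (t * lg f x) * ‖h x‖) (volume.restrict (ZZ f)) := by
  have h2 : Integrable (K.indicator fun x => C * NN f x ^ (t + e)) :=
    (integrable_indicator_iff hK).2 ((hint (t + e) (by linarith)).const_mul C)
  refine (h2.restrict (s := ZZ f)).mono' ?_ ?_
  · exact (((measurable_lg f).const_mul t).exp.aestronglyMeasurable).mul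
      hh.norm.aestronglyMeasurable
  · refine (ae_restrict_iff' (measurableSet_ZZ f)).2 (Eventually.of_forall fun x hx => ?_)
    rw [norm_mul, norm_norm, Real.norm_eq_abs, abs_of_pos (Real.exp_pos _)]
    by_cases hxK : x ∈ K
    · rw [Set.indicator_of_mem hxK, exp_lg hx, Real.rpow_add (NN_pos hx)]
      calc NN f x ^ t * ‖h x‖ ≤ NN f x ^ t * (C * NN f x ^ e) :=
            mul_le_mul_of_nonneg_left (h1 x hxK) (Real.rpow_nonneg (NN_nonneg f x) t)
        _ = _ := by ring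
    · rw [Set.indicator_of_notMem hxK, h0 x hxK, norm_zero, mul_zero]

theorem differentiableOn_JJ {f : MvPolynomial (Fin n) ℂ} {h : (Fin n → ℂ) → ℂ} {c₀ e C : ℝ}
    (hK : MeasurableSet K) (hh : Continuous h)
    (hint : ∀ t : ℝ, -c₀ < t → IntegrableOn (fun x => NN f x ^ t) K)
    (h0 : ∀ x ∉ K, h x = 0) (h1 : ∀ x ∈ K, ‖h x‖ ≤ C * NN f x ^ e) :
    DifferentiableOn ℂ (JJ f h) {z | -c₀ - e < z.re} :=
  differentiableOn_integral_exp (measurable_lg f) hh.aestronglyMeasurable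
    fun _ ht => integrable_exp_lg hK hh hint h0 h1 ht

theorem IsTest.exists_bound {φ : (Fin n → ℂ) → ℂ} (h : IsTest K φ) :
    ∃ C : ℝ, ∀ x, ‖φ x‖ ≤ C := by
  obtain ⟨C, hC⟩ := h.continuous.bounded_above_of_compact_support h.hasCompactSupport
  exact ⟨C, hC⟩

/-- The integrals which occur on the right hand side of the functional equation continue to
`Re z > -c₀ - 1/2`. -/
theorem Good.exists_continuation {f : MvPolynomial (Fin n) ℂ} {c₀ : ℝ} (hK : MeasurableSet K)
    (hint : ∀ t : ℝ, -c₀ < t → IntegrableOn (fun x => NN f x ^ t) K) {A : ℝ → ℂ}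
    (h : Good K f A) :
    ∃ B : ℂ → ℂ, DifferentiableOn ℂ B {z | -c₀ - 1 / 2 < z.re} ∧ ∀ᶠ s : ℝ in atTop, A s = B s := by
  induction h with
  | @base ψ hψ =>
    obtain ⟨C, hC⟩ := hψ.exists_bound
    refine ⟨JJ f fun x => eval x f * ψ x, ?_, ?_⟩
    · refine differentiableOn_JJ (C := C) hK ((continuous_evalP f).mul hψ.continuous) hint
        (fun x hx => by rw [hψ.zero x hx, mul_zero]) fun x _ => ?_
      rw [norm_mul, norm_eval_eq, mul_comm]
      exact mul_le_mul_of_nonneg_right (hC x) (Real.rpow_nonneg (NN_nonneg f x) _)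
    · filter_upwards [eventually_gt_atTop (0 : ℝ)] with s hs
      rw [JJ_ofReal f _ hs.ne']
      refine integral_congr_ae (Eventually.of_forall fun x => ?_)
      unfold WW
      simp only [pow_zero, Nat.cast_zero, sub_zero, mul_one]
      ring
  | add _ _ ih1 ih2 =>
    obtain ⟨B1, h1, h1'⟩ := ih1
    obtain ⟨B2, h2, h2'⟩ := ih2
    refine ⟨fun z => B1 z + B2 z, h1.fun_add h2, ?_⟩
    filter_upwards [h1', h2'] with s hs1 hs2
    rw [hs1, hs2]
  | poly p _ ih =>
    obtain ⟨B1, h1, h1'⟩ := ih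
    refine ⟨fun z => p.eval z * B1 z, (p.differentiable.differentiableOn).fun_mul h1, ?_⟩
    filter_upwards [h1'] with s hs1
    rw [hs1]
  | congr _ hAB ih =>
    obtain ⟨B1, h1, h1'⟩ := ih
    refine ⟨B1, h1, ?_⟩
    filter_upwards [h1', hAB] with s hs1 hs2
    rw [← hs2, hs1]

/-- **The log canonical threshold gives a root of the Bernstein–Sato polynomial** (classical). -/
theorem root_of_lct_aux {f : MvPolynomial (Fin n) ℂ} {b : Polynomial ℂ}
    (hb : IsBernsteinSato f b) {p : Fin n → ℂ} {r c₀ : ℝ} (hr : 0 < r) (hc₀ : 0 < c₀)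
    (hint : ∀ t : ℝ, -c₀ < t → t < 0 → IntegrableOn (fun x => NN f x ^ t) (Metric.ball p r))
    (hnot : ∀ r' > 0, ¬ IntegrableOn (fun x => NN f x ^ (-c₀)) (Metric.ball p r')) :
    b.eval ((-c₀ : ℝ) : ℂ) = 0 := by
  classical
  set bf : ContDiffBump p := ⟨r / 3, r / 2, by positivity, by linarith⟩ with hbf
  set K : Set (Fin n → ℂ) := Metric.closedBall p (r / 2) with hKdef
  have hKm : MeasurableSet K := Metric.isClosed_closedBall.measurableSet
  have hKsub : K ⊆ Metric.ball p r := Metric.closedBall_subset_ball (by linarith)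
  set φ : (Fin n → ℂ) → ℂ := fun x => ((bf x : ℝ) : ℂ) with hφdef
  have hφ : IsTest K φ := by
    refine ⟨Complex.ofRealCLM.contDiff.comp bf.contDiff, isCompact_closedBall _ _, fun x hx => ?_⟩
    have h1 : bf x = 0 := by
      apply bf.zero_of_le_dist
      rw [hKdef, Metric.mem_closedBall, not_le] at hx
      exact hx.le
    simp only [hφdef, h1, Complex.ofReal_zero]
  have hint' : ∀ t : ℝ, -c₀ < t → IntegrableOn (fun x => NN f x ^ t) K := by
    intro t ht
    rcases lt_or_ge t 0 with h | h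
    · exact (hint t ht h).mono_set hKsub
    · exact ((continuous_NN f).rpow_const fun _ => Or.inr h).continuousOn.integrableOn_compact
        (isCompact_closedBall _ _)
  obtain ⟨C, hC⟩ := hφ.exists_bound
  have hI : DifferentiableOn ℂ (JJ f φ) {z | -c₀ < z.re} := by
    have := differentiableOn_JJ (e := 0) (C := C) hKm hφ.continuous hint' hφ.zero
      (fun x _ => by rw [Real.rpow_zero, mul_one]; exact hC x)
    simpa using this
  obtain ⟨B, hB1, hB2⟩ := (good_of_isBernsteinSato hb hφ).exists_continuation hKm hint'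
  obtain ⟨s₁, hs₁⟩ := (hB2.and (eventually_gt_atTop 0)).exists_forall_of_atTop
  have heq : ∀ z : ℂ, -c₀ < z.re → b.eval z * JJ f φ z = B z := by
    refine eq_of_eq_real ((b.differentiable.differentiableOn).fun_mul hI)
      (hB1.mono fun z hz => ?_) (s₁ := s₁) fun s hs => ?_
    · simp only [Set.mem_ofPred_eq] at hz ⊢
      linarith
    · obtain ⟨h1, h2⟩ := hs₁ s hs
      rw [← h1, JJ_ofReal f φ h2.ne']
  by_contra hne
  -- the sequence
  set σ : ℕ → ℝ := fun k => -c₀ + c₀ / (k + 2) with hσ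
  have hσ1 : ∀ k, -c₀ < σ k := fun k => by
    have : 0 < c₀ / ((k : ℝ) + 2) := by positivity
    simp only [hσ]
    linarith
  have hσ2 : ∀ k, σ k ≠ 0 := fun k => by
    have h1 : c₀ / ((k : ℝ) + 2) < c₀ := by
      rw [div_lt_iff₀ (by positivity)]
      nlinarith [(Nat.cast_nonneg k : (0 : ℝ) ≤ k)]
    simp only [hσ]
    intro h
    linarith
  have hσlim : Tendsto σ atTop (𝓝 (-c₀)) := by
    have h1 : Tendsto (fun k : ℕ => c₀ / ((k : ℝ) + 2)) atTop (𝓝 0) := by
      apply Tendsto.const_div_atTop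
      exact tendsto_atTop_add_const_right _ _ tendsto_natCast_atTop_atTop
    have h2 := h1.const_add (-c₀)
    rwa [add_zero] at h2
  have hσlimC : Tendsto (fun k => ((σ k : ℝ) : ℂ)) atTop (𝓝 ((-c₀ : ℝ) : ℂ)) :=
    (Complex.continuous_ofReal.tendsto _).comp hσlim
  have hBc : ContinuousAt B ((-c₀ : ℝ) : ℂ) := by
    refine (hB1.differentiableAt ?_).continuousAt
    refine (isOpen_lt continuous_const Complex.continuous_re).mem_nhds ?_
    simp
  have hlim : Tendsto (fun k => JJ f φ (σ k : ℝ)) atTop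
      (𝓝 (B ((-c₀ : ℝ) : ℂ) / b.eval ((-c₀ : ℝ) : ℂ))) := by
    have h1 : Tendsto (fun k => B ((σ k : ℝ) : ℂ) / b.eval ((σ k : ℝ) : ℂ)) atTop
        (𝓝 (B ((-c₀ : ℝ) : ℂ) / b.eval ((-c₀ : ℝ) : ℂ))) :=
      (hBc.tendsto.comp hσlimC).div ((b.continuous.tendsto _).comp hσlimC) hne
    refine h1.congr' ?_
    have h2 : ∀ᶠ k in atTop, b.eval ((σ k : ℝ) : ℂ) ≠ 0 :=
      ((b.continuous.tendsto _).comp hσlimC).eventually_ne hne
    filter_upwards [h2] with k hk
    rw [← heq _ (by simpa using hσ1 k)]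
    field_simp
  -- Fatou
  set G : ℕ → (Fin n → ℂ) → ENNReal := fun k x => ENNReal.ofReal (NN f x ^ (σ k) * bf x) with hG
  have hGm : ∀ k, Measurable (G k) := fun k =>
    (((continuous_NN f).measurable.pow_const (σ k)).mul
      bf.continuous.measurable).ennreal_ofReal
  have hGint : ∀ k, Integrable (fun x => NN f x ^ (σ k) * bf x)
      (volume.restrict (ZZ f)) := by
    intro k
    have h1 := integrable_exp_lg (e := 0) (C := C) hKm hφ.continuous hint' hφ.zero
      (fun x _ => by rw [Real.rpow_zero, mul_one]; exact hC x) (t := σ k)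
      (by rw [sub_zero]; exact hσ1 k)
    refine (integrable_congr ?_).1 h1
    refine (ae_restrict_iff' (measurableSet_ZZ f)).2 (Eventually.of_forall fun x hx => ?_)
    simp only [hφdef]
    rw [exp_lg hx, Complex.norm_real, Real.norm_eq_abs, abs_of_nonneg bf.nonneg]
  have hGval : ∀ k, ∫⁻ x, G k x ∂(volume.restrict (ZZ f)) = ENNReal.ofReal ‖JJ f φ (σ k : ℝ)‖ := by
    intro k
    have h1 : JJ f φ (σ k : ℝ) = ((∫ x, NN f x ^ (σ k) * bf x ∂(volume.restrict (ZZ f)) : ℝ) : ℂ) := by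
      unfold JJ
      rw [← integral_complex_ofReal]
      refine setIntegral_congr_fun (measurableSet_ZZ f) fun x hx => ?_
      simp only [cexp_lg hx, hφdef]
      push_cast
      rfl
    have h0 : 0 ≤ ∫ x, NN f x ^ (σ k) * bf x ∂(volume.restrict (ZZ f)) :=
      integral_nonneg fun x => mul_nonneg (Real.rpow_nonneg (NN_nonneg f x) _) bf.nonneg
    rw [h1, Complex.norm_real, Real.norm_eq_abs, abs_of_nonneg h0,
      ofReal_integral_eq_lintegral_ofReal (hGint k)
        (Eventually.of_forall fun x => mul_nonneg (Real.rpow_nonneg (NN_nonneg f x) _) bf.nonneg)]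
  have hfatou : ∫⁻ x, liminf (fun k => G k x) atTop ∂(volume.restrict (ZZ f)) ≤
      liminf (fun k => ∫⁻ x, G k x ∂(volume.restrict (ZZ f))) atTop :=
    lintegral_liminf_le hGm
  have hlim2 : Tendsto (fun k => ∫⁻ x, G k x ∂(volume.restrict (ZZ f))) atTop
      (𝓝 (ENNReal.ofReal ‖B ((-c₀ : ℝ) : ℂ) / b.eval ((-c₀ : ℝ) : ℂ)‖)) := by
    simp only [hGval]
    exact (ENNReal.continuous_ofReal.tendsto _).comp hlim.norm
  rw [hlim2.liminf_eq] at hfatou
  have hptw : ∀ x ∈ ZZ f, liminf (fun k => G k x) atTop = ENNReal.ofReal (NN f x ^ (-c₀) * bf x) := by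
    intro x hx
    apply Tendsto.liminf_eq
    refine (ENNReal.continuous_ofReal.tendsto _).comp ?_
    exact ((tendsto_const_nhds.rpow hσlim (Or.inl (NN_pos hx).ne'))).mul_const _
  have hfin : ∫⁻ x in ZZ f, ENNReal.ofReal (NN f x ^ (-c₀) * bf x) < ⊤ := by
    rw [← setLIntegral_congr_fun (measurableSet_ZZ f) hptw]
    exact lt_of_le_of_lt hfatou ENNReal.ofReal_lt_top
  apply hnot (r / 3) (by positivity)
  refine ⟨((continuous_NN f).measurable.pow_const _).aestronglyMeasurable, ?_⟩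
  unfold HasFiniteIntegral
  have hsub : Metric.ball p (r / 3) = (Metric.ball p (r / 3) ∩ ZZ f) ∪ (Metric.ball p (r / 3) \ ZZ f) :=
    (Set.inter_union_sdiff _ _).symm
  have hz : ∫⁻ x in Metric.ball p (r / 3) \ ZZ f, ‖NN f x ^ (-c₀)‖ₑ = 0 := by
    rw [setLIntegral_congr_fun (g := fun _ => 0)
      (Metric.isOpen_ball.measurableSet.diff (measurableSet_ZZ f))]
    · simp
    · intro x hx
      beta_reduce
      rw [NN_zero hx.2, Real.zero_rpow (by linarith), enorm_zero]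
  have h1 : ∫⁻ x in Metric.ball p (r / 3), ‖NN f x ^ (-c₀)‖ₑ ≤
      ∫⁻ x in ZZ f, ENNReal.ofReal (NN f x ^ (-c₀) * bf x) := by
    calc ∫⁻ x in Metric.ball p (r / 3), ‖NN f x ^ (-c₀)‖ₑ
        ≤ (∫⁻ x in Metric.ball p (r / 3) ∩ ZZ f, ‖NN f x ^ (-c₀)‖ₑ) +
          ∫⁻ x in Metric.ball p (r / 3) \ ZZ f, ‖NN f x ^ (-c₀)‖ₑ := by
          conv_lhs => rw [hsub]
          exact lintegral_union_le _ _ _
      _ = ∫⁻ x in Metric.ball p (r / 3) ∩ ZZ f, ‖NN f x ^ (-c₀)‖ₑ := by rw [hz, add_zero]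
      _ = ∫⁻ x in Metric.ball p (r / 3) ∩ ZZ f, ENNReal.ofReal (NN f x ^ (-c₀) * bf x) := by
          refine setLIntegral_congr_fun
            (Metric.isOpen_ball.measurableSet.inter (measurableSet_ZZ f)) fun x hx => ?_
          have h2 : bf x = 1 := bf.one_of_mem_closedBall (Metric.ball_subset_closedBall hx.1)
          beta_reduce
          rw [h2, mul_one, Real.enorm_of_nonneg (Real.rpow_nonneg (NN_nonneg f x) _)]
      _ ≤ _ := lintegral_mono_set Set.inter_subset_right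
  exact lt_of_le_of_lt h1 hfin

end MPb07157.Lct
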