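import Pool.Agent.Lib.MP_b07157_agL.Le
import Pool.Agent.Lib.MP_b07157_agH.HZ

/-!
# Homogeneous polynomials with log canonical threshold `n/d`
-/

noncomputable section

namespace MPb07157.Lct

open MeasureTheory Filter Topology MvPolynomial Pointwise
open scoped ComplexConjugate ContDiff

variable {n : ℕ}

theorem NN_smul {f : MvPolynomial (Fin n) ℂ} {d : ℕ} (hh : f.IsHomogeneous d) {R : ℝ}
    (x : Fin n → ℂ) : NN f (R • x) = (R ^ 2) ^ d * NN f x := by
  unfold NN
  have h1 : R • x = (R : ℂ) • x := by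
    funext i
    simp
  rw [h1, eval_smul_of_homog hh, map_mul, map_pow, Complex.normSq_ofReal, pow_two]

/-- `|f|^{-2n/d}` is not integrable at the origin. -/
theorem not_integrableOn_of_homogeneous {f : MvPolynomial (Fin n) ℂ} {d : ℕ} (hd : 0 < d)
    (hn : 0 < n) (hf : f ≠ 0) (hh : f.IsHomogeneous d) {r : ℝ} (hr : 0 < r) :
    ¬ IntegrableOn (fun x => NN f x ^ (-((n : ℝ) / d))) (Metric.ball (0 : Fin n → ℂ) r) := by
  intro hint
  set c : ℝ := (n : ℝ) / d with hc
  have hd' : (0 : ℝ) < d := by exact_mod_cast hd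
  set g : (Fin n → ℂ) → ℝ := fun x => NN f x ^ (-c) with hg
  have hg0 : ∀ x, 0 ≤ g x := fun x => Real.rpow_nonneg (NN_nonneg f x) _
  have hfin : Module.finrank ℝ (Fin n → ℂ) = 2 * n := by
    rw [Module.finrank_pi_fintype ℝ]
    simp [Complex.finrank_real_complex, mul_comm]
  have hball : (1 / 2 : ℝ) • Metric.ball (0 : Fin n → ℂ) r = Metric.ball 0 (r / 2) := by
    rw [smul_ball (by norm_num : (1 / 2 : ℝ) ≠ 0), smul_zero]
    congr 1
    rw [Real.norm_eq_abs, abs_of_pos (by norm_num)]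
    ring
  have h1 := Measure.setIntegral_comp_smul_of_pos (volume : Measure (Fin n → ℂ)) g
    (Metric.ball (0 : Fin n → ℂ) r) (R := 1 / 2) (by norm_num)
  have h2 : ∀ x, g ((1 / 2 : ℝ) • x) = (2 : ℝ) ^ (2 * n) * g x := by
    intro x
    simp only [hg]
    rw [NN_smul hh, Real.mul_rpow (by positivity) (NN_nonneg f x)]
    congr 1
    have e1 : (((1 / 2 : ℝ) ^ 2) ^ d) = (1 / 2 : ℝ) ^ ((2 * d : ℕ) : ℝ) := by
      rw [Real.rpow_natCast, pow_mul]
    have e2 : (2 : ℝ) ^ (2 * n) = (1 / 2 : ℝ) ^ (-(((2 * n : ℕ) : ℝ))) := by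
      rw [Real.rpow_neg (by norm_num), Real.rpow_natCast, one_div, inv_pow, inv_inv]
    rw [e1, e2, ← Real.rpow_mul (by norm_num)]
    congr 1
    rw [hc]
    push_cast
    field_simp
  simp only [h2] at h1
  rw [integral_const_mul, hball, hfin, smul_eq_mul] at h1
  have h3 : ∫ x in Metric.ball (0 : Fin n → ℂ) r, g x =
      ∫ x in Metric.ball (0 : Fin n → ℂ) (r / 2), g x := by
    have e : ((1 / 2 : ℝ) ^ (2 * n))⁻¹ = (2 : ℝ) ^ (2 * n) := by
      rw [one_div, inv_pow, inv_inv]
    rw [e] at h1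
    exact mul_left_cancel₀ (by positivity) h1
  have hsub : Metric.ball (0 : Fin n → ℂ) (r / 2) ⊆ Metric.ball 0 r :=
    Metric.ball_subset_ball (by linarith)
  have h4 : ∫ x in Metric.ball (0 : Fin n → ℂ) r \ Metric.ball 0 (r / 2), g x = 0 := by
    rw [setIntegral_sdiff Metric.isOpen_ball.measurableSet hint hsub, h3, sub_self]
  have h5 : g =ᵐ[volume.restrict (Metric.ball (0 : Fin n → ℂ) r \ Metric.ball 0 (r / 2))] 0 :=
    (setIntegral_eq_zero_iff_of_nonneg_ae (Eventually.of_forall hg0)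
      (hint.mono_set Set.sdiff_subset)).1 h4
  -- a point
  obtain ⟨y, hy⟩ : ∃ y : Fin n → ℂ, eval y f ≠ 0 := by
    by_contra hcon
    push Not at hcon
    exact hf (MvPolynomial.funext fun x => by rw [hcon x, map_zero])
  have hy0 : y ≠ 0 := by
    rintro rfl
    apply hy
    have := eval_smul_of_homog hh 0 (0 : Fin n → ℂ)
    rw [zero_smul, zero_pow hd.ne', zero_mul] at this
    exact this
  have hyn : 0 < ‖y‖ := norm_pos_iff.2 hy0
  set t : ℝ := (3 * r / 4) / ‖y‖ with ht
  have htpos : 0 < t := by positivity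
  have hyt : ‖t • y‖ = 3 * r / 4 := by
    rw [norm_smul, Real.norm_eq_abs, abs_of_pos htpos, ht, div_mul_cancel₀ _ hyn.ne']
  set U : Set (Fin n → ℂ) := (Metric.ball 0 r \ Metric.closedBall 0 (r / 2)) ∩ ZZ f with hU
  have hUo : IsOpen U :=
    (Metric.isOpen_ball.sdiff Metric.isClosed_closedBall).inter (isOpen_ZZ f)
  have hUne : U.Nonempty := by
    refine ⟨t • y, ⟨?_, ?_⟩, ?_⟩
    · rw [mem_ball_zero_iff, hyt]; linarith
    · rw [mem_closedBall_zero_iff, hyt]; linarith
    · show eval (t • y) f ≠ 0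
      have h1 : t • y = (t : ℂ) • y := by
        funext i
        simp
      rw [h1, eval_smul_of_homog hh]
      exact mul_ne_zero (pow_ne_zero _ (by exact_mod_cast htpos.ne')) hy
  have hUpos : 0 < volume U := hUo.measure_pos volume hUne
  have h6 : volume U = 0 := by
    rw [Filter.EventuallyEq, ae_restrict_iff' (Metric.isOpen_ball.measurableSet.diff
      Metric.isOpen_ball.measurableSet)] at h5
    refine measure_mono_null (fun x hx => ?_) h5
    simp only [Set.mem_compl_iff, Set.mem_ofPred_eq, Classical.not_imp]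
    refine ⟨⟨hx.1.1, fun h => hx.1.2 (Metric.ball_subset_closedBall h)⟩, ?_⟩
    simp only [hg, Pi.zero_apply]
    exact (Real.rpow_pos_of_pos (NN_pos hx.2) _).ne'
  exact hUpos.ne' h6

/-- **The root `-n/d`** of a homogeneous polynomial of degree `d` in `n` variables such that
`|f|^{-2c}` is integrable at the origin for all `c < n/d`. -/
theorem root_of_lct {f : MvPolynomial (Fin n) ℂ} {d : ℕ} (hd : 0 < d) (hf : f ≠ 0)
    (hh : f.IsHomogeneous d)
    (hint : ∀ c : ℝ, 0 < c → c < (n : ℝ) / d →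
      IntegrableOn (fun x => ‖eval x f‖ ^ (-(2 * c))) (Metric.ball (0 : Fin n → ℂ) 1))
    {b : Polynomial ℂ} (hb : IsBernsteinSato f b) :
    b.eval (((-((n : ℚ) / d) : ℚ)) : ℂ) = 0 := by
  have hn : 0 < n := by
    by_contra hcon
    have hn0 : n = 0 := by omega
    subst hn0
    obtain ⟨v, hv⟩ := Finset.nonempty_iff_ne_empty.2 (fun h => hf (support_eq_empty.1 h))
    have h1 := hh (mem_support_iff.1 hv)
    rw [Finsupp.weight_apply, Finsupp.sum_fintype _ _ (fun i => by simp)] at h1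
    simp at h1
    omega
  have hc : (0 : ℝ) < (n : ℝ) / d := by
    have h1 : (0 : ℝ) < n := by exact_mod_cast hn
    have h2 : (0 : ℝ) < d := by exact_mod_cast hd
    positivity
  have h := root_of_lct_aux hb (p := 0) (r := 1) one_pos hc ?_ ?_
  · rw [← h]
    push_cast
    rfl
  · intro t ht ht0
    have h1 := hint (-t) (by linarith) (by linarith)
    refine h1.congr_fun (fun x _ => ?_) Metric.isOpen_ball.measurableSet
    simp only
    rw [norm_eval_eq, ← Real.rpow_mul (NN_nonneg f x)]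
    congr 1
    ring
  · intro r' hr'
    exact not_integrableOn_of_homogeneous hd hn hf hh hr'

end MPb07157.Lct
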